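import Pool.Agent.R272.RT.Weak

/-!
# Uniform regularity does not replace condition (b)

There are a compact `ℝ`-tree `T` and a bounded set `W` in its Lipschitz free space which satisfies
condition (a) and is uniformly regular, but is not relatively weakly compact.

The tree is the convex hull of a Cantor set of leaves. At level `k` there are `2 ^ k` segments of
length `2 ^ (-k-1)`, which start at the points `p A` (`A` a subset of `{0, ..., k-1}`) and end at
the points `p (A ∪ {k})`; infinitely many smaller branches start at each `p A`. The elements of `W` are
`f k = ∑ A, (δ (p (A ∪ {k})) - δ (p A))`. Uniform regularity holds since the proportion of the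
cylinders of level `n` that lie in the open set `U` is a bounded monotone function of `n`: for large
levels, except for a small proportion, the end points of the segments which do not lie in a good
cylinder of level `n₀` are very close to the complement of `U`.
-/

set_option autoImplicit false

open Pool.Agent.H266R3.LF Pool.Agent.R272.RT

namespace Pool.Agent.Results.MP_13bb8c_an.UniformRegularity

theorem result : ∃ (T : Type) (_ : MetricSpace T) (_ : CompactSpace T) (o : T),
    IsRTree T ∧ ∃ W : Set (FreeSp T o), Bornology.IsBounded W ∧ CondA o W ∧
      UniformlyRegular o W ∧ ¬ RelWeaklyCompact o W := by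
  refine ⟨TD, inferInstance, inferInstance, rt, htreeD.isRTree, Set.range ff, ?_, condA,
    uniformlyRegular, not_weaklyCompact⟩
  rw [isBounded_iff_forall_norm_le]
  exact ⟨1 / 2, by rintro _ ⟨k, rfl⟩; exact ff_norm k⟩

end Pool.Agent.Results.MP_13bb8c_an.UniformRegularity
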